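import Pool.Agent.V11199.ZP.Tri

/-!
MP_b74c76_co: the maximum order complexity of the Zeckendorf parity sequence.
-/

namespace Pool.Agent.Results.MP_b74c76_co.NoLimit

open Nat Filter Topology Real

/-- The Zeckendorf parity sequence: the number of summands in the Zeckendorf representation of `n`,
modulo two. -/
def SZ (n : ℕ) : ZMod 2 := ((Nat.zeckendorf n).length : ZMod 2)

/-- The `N`th maximum order complexity of a sequence `s`: the least `k` for which there is a
feedback function `f` with `s (i+k) = f (s i, ..., s (i+k-1))` whenever `i + k ≤ N - 1`. -/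
noncomputable def moc {α : Type*} (s : ℕ → α) (N : ℕ) : ℕ :=
  sInf {k : ℕ | ∃ f : (Fin k → α) → α,
    ∀ i : ℕ, i + k < N → s (i + k) = f (fun j : Fin k => s (i + (j : ℕ)))}

/-- Lucas numbers `2, 1, 3, 4, 7, 11, ...`. -/
def lucas : ℕ → ℕ
  | 0 => 2
  | 1 => 1
  | (n+2) => lucas (n+1) + lucas n

open Pool.Agent.V11199.ZP

lemma SZ_eq_iff (n m : ℕ) : SZ n = SZ m ↔ sg n = sg m := by
  unfold SZ sg
  rw [ZMod.natCast_eq_natCast_iff']
  rw [Nat.mod_two_of_bodd, Nat.mod_two_of_bodd]
  cases (Nat.zeckendorf n).length.bodd <;> cases (Nat.zeckendorf m).length.bodd <;> simp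

lemma moc_mem {α : Type*} [Nonempty α] (s : ℕ → α) (N : ℕ) :
    ∃ f : (Fin (moc s N) → α) → α,
    ∀ i : ℕ, i + moc s N < N → s (i + moc s N) = f (fun j : Fin (moc s N) => s (i + (j : ℕ))) := by
  have hne : {k : ℕ | ∃ f : (Fin k → α) → α,
    ∀ i : ℕ, i + k < N → s (i + k) = f (fun j : Fin k => s (i + (j : ℕ)))}.Nonempty := by
    refine ⟨N, fun _ => Classical.arbitrary α, ?_⟩
    intro i hi
    omega
  exact Nat.sInf_mem hne

lemma moc_lower {α : Type*} [Nonempty α] (s : ℕ → α) (N : ℕ) {i j d : ℕ}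
    (hi : i + d < N) (hj : j + d < N) (h : ∀ t < d, s (i+t) = s (j+t))
    (hne : s (i+d) ≠ s (j+d)) : d + 1 ≤ moc s N := by
  by_contra hc
  obtain ⟨f, hf⟩ := moc_mem s N
  set k := moc s N with hk
  have hkd : k ≤ d := by omega
  obtain ⟨c, rfl⟩ := Nat.exists_eq_add_of_le' hkd
  apply hne
  have h1 := hf (i + c) (by omega)
  have h2 := hf (j + c) (by omega)
  rw [← add_assoc, ← add_assoc, h1, h2]
  congr 1
  funext t
  have := h (c + t) (by have := t.2; omega)
  rwa [← add_assoc, ← add_assoc] at this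

lemma moc_upper {α : Type*} [Nonempty α] (s : ℕ → α) (N k : ℕ)
    (h : ∀ i j, i < j → j + k < N → (∀ t < k, s (i+t) = s (j+t)) → s (i+k) = s (j+k)) :
    moc s N ≤ k := by
  classical
  apply Nat.sInf_le
  refine ⟨fun w => if hw : ∃ i, i + k < N ∧ (fun t : Fin k => s (i + (t:ℕ))) = w then
    s (hw.choose + k) else Classical.arbitrary α, ?_⟩
  intro i hi
  have hw : ∃ i', i' + k < N ∧ (fun t : Fin k => s (i' + (t:ℕ))) =
      (fun j : Fin k => s (i + (j : ℕ))) := ⟨i, hi, rfl⟩
  simp only [hw, dite_true]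
  obtain ⟨h1, h2⟩ := hw.choose_spec
  generalize hw.choose = i' at h1 h2
  have h3 : ∀ t < k, s (i'+t) = s (i+t) := by
    intro t ht
    exact congrFun h2 ⟨t, ht⟩
  rcases Nat.lt_trichotomy i i' with hlt | heq | hgt
  · exact h i i' hlt h1 (fun t ht => (h3 t ht).symm)
  · rw [heq]
  · exact (h i' i hgt hi h3).symm

lemma lower_bound (k N : ℕ) (hk : 4 ≤ k) (hN : Lu k < N) : fib (k+2) + 1 ≤ moc SZ N := by
  obtain ⟨c, rfl⟩ := Nat.exists_eq_add_of_le' hk
  obtain ⟨i, hi⟩ := lower c
  have hL : Lu (c+4) = fib (c+8) + fib (c+6) := rfl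
  have hlt := hi.lt
  refine moc_lower SZ N (i := i) (j := fib (c+8)) (d := fib (c+6)) (by omega) (by omega) ?_ ?_
  · intro t ht
    rw [SZ_eq_iff]
    exact congrArg Prod.fst (hi.eq t ht)
  · intro hc
    exact hi.ne ((SZ_eq_iff _ _).1 hc)

lemma upper_bound (k N : ℕ) (hk : 4 ≤ k) (hN : N ≤ Lu (k+1)) : moc SZ N ≤ fib (k+2) + 2 := by
  have hfib : 8 ≤ fib (k+2) := by
    have : fib 6 ≤ fib (k+2) := Nat.fib_mono (by omega)
    exact this
  apply moc_upper
  intro i j hij hj h
  by_contra hne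
  have hT : Tr (i+1) (j+1) (fib (k+2) + 1) := by
    refine ⟨by omega, ?_, ?_⟩
    · intro t ht
      have hs : ∀ u, u < fib (k+2) + 2 → sg (i+u) = sg (j+u) := by
        intro u hu
        exact (SZ_eq_iff _ _).1 (h u hu)
      rcases Nat.lt_or_ge t 4 with h4 | h4
      · have := decode (n := i) (m := j) (fun u hu => hs u (by omega)) (t+1) (by omega) (by omega)
        rw [show i + 1 + t = i + (t+1) by omega, show j + 1 + t = j + (t+1) by omega]
        exact this
      · have := decode (n := i + (t-3)) (m := j + (t-3)) (fun u hu => ?_) 4 (by omega) (by omega)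
        · rw [show i + 1 + t = i + (t-3) + 4 by omega, show j + 1 + t = j + (t-3) + 4 by omega]
          exact this
        · have := hs (t-3+u) (by omega)
          rw [← add_assoc, ← add_assoc] at this
          exact this
    · intro hc
      apply hne
      rw [SZ_eq_iff]
      rw [show i + (fib (k+2) + 2) = i + 1 + (fib (k+2) + 1) by omega,
        show j + (fib (k+2) + 2) = j + 1 + (fib (k+2) + 1) by omega]
      exact hc
  rcases hT.upper (K := k) (by omega) (by omega) with h1 | h1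
  · omega
  · omega

lemma lucas_eq (k : ℕ) : lucas (k+3) = Lu k ∧ lucas (k+4) = Lu (k+1) := by
  induction k with
  | zero => constructor <;> rfl
  | succ k ih =>
    refine ⟨ih.2, ?_⟩
    have h1 : lucas (k+1+4) = lucas (k+4) + lucas (k+3) := rfl
    rw [h1, ih.1, ih.2]
    unfold Lu
    have h2 : fib (k+6) = fib (k+4) + fib (k+5) := Nat.fib_add_two (n := k+4)
    have h3 : fib (k+4) = fib (k+2) + fib (k+3) := Nat.fib_add_two (n := k+2)
    have e1 : fib (k+1+1+4) = fib (k+6) := rfl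
    have e2 : fib (k+1+1+2) = fib (k+4) := rfl
    have e3 : fib (k+1+4) = fib (k+5) := rfl
    have e4 : fib (k+1+2) = fib (k+3) := rfl
    omega

/-! ### Asymptotics -/

lemma fib_ratio (a : ℕ) : Tendsto (fun n => ((fib (n+a+1) : ℝ)) / fib (n+a)) atTop (𝓝 goldenRatio) :=
  (tendsto_add_atTop_iff_nat (f := fun n => ((fib (n+1) : ℝ)) / fib n) a).2
    tendsto_fib_succ_div_fib_atTop

lemma fib_ne (n : ℕ) (hn : 0 < n) : (fib n : ℝ) ≠ 0 := by
  have := Nat.fib_pos.2 hn
  positivity

lemma ratio2 : Tendsto (fun k => ((fib (k+4) : ℝ)) / fib (k+2)) atTop (𝓝 (goldenRatio^2)) := by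
  have h := (fib_ratio 3).mul (fib_ratio 2)
  rw [← sq] at h
  refine h.congr (fun k => ?_)
  have h1 := fib_ne (k+3) (by omega)
  have h2 := fib_ne (k+2) (by omega)
  show (fib (k+4) : ℝ) / fib (k+3) * ((fib (k+3) : ℝ) / fib (k+2)) = _
  field_simp

lemma ratio3 : Tendsto (fun k => ((fib (k+5) : ℝ)) / fib (k+2)) atTop (𝓝 (goldenRatio^3)) := by
  have h := (fib_ratio 4).mul ratio2
  have e : goldenRatio * goldenRatio^2 = goldenRatio^3 := by ring
  rw [e] at h
  refine h.congr (fun k => ?_)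
  have h1 := fib_ne (k+4) (by omega)
  have h2 := fib_ne (k+2) (by omega)
  show (fib (k+5) : ℝ) / fib (k+4) * ((fib (k+4) : ℝ) / fib (k+2)) = _
  field_simp

lemma inv_fib : Tendsto (fun k : ℕ => (1:ℝ) / fib (k+2)) atTop (𝓝 0) := by
  have h1 : Tendsto (fun k : ℕ => (k:ℝ)) atTop atTop := tendsto_natCast_atTop_atTop
  have h2 : Tendsto (fun k : ℕ => ((fib (k+2) : ℕ) : ℝ)) atTop atTop := by
    have h3 : StrictMono (fun k : ℕ => fib (k+2)) := Nat.fib_add_two_strictMono
    exact h1.comp h3.tendsto_atTop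
  refine h2.inv_tendsto_atTop.congr (fun k => ?_)
  simp

/-- general limit: `(fib (k+2) + c)/(Lu k + d) → 1/(1+φ²)`. -/
lemma lim_a (c d : ℝ) : Tendsto (fun k => ((fib (k+2) : ℝ) + c) / ((Lu k : ℝ) + d)) atTop
    (𝓝 (1 / (1 + goldenRatio^2))) := by
  have h1 : Tendsto (fun k : ℕ => (1 + c * (1 / (fib (k+2) : ℝ))) /
      (1 + ((fib (k+4) : ℝ)) / fib (k+2) + d * (1 / (fib (k+2) : ℝ)))) atTop
      (𝓝 ((1 + c * 0) / (1 + goldenRatio^2 + d * 0))) := by
    apply Tendsto.div
    · exact tendsto_const_nhds.add (inv_fib.const_mul c)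
    · exact (tendsto_const_nhds.add ratio2).add (inv_fib.const_mul d)
    · have := goldenRatio_pos
      rw [mul_zero, add_zero]
      positivity
  simp only [mul_zero, add_zero] at h1
  refine h1.congr (fun k => ?_)
  have h2 := fib_ne (k+2) (by omega)
  have h3 : (Lu k : ℝ) = fib (k+4) + fib (k+2) := by unfold Lu; push_cast; ring
  rw [h3]
  have e1 : (1 + c * (1 / (fib (k+2) : ℝ))) = ((fib (k+2) : ℝ) + c) / fib (k+2) := by
    field_simp
  have e2 : (1 + ((fib (k+4) : ℝ)) / fib (k+2) + d * (1 / (fib (k+2) : ℝ))) =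
      ((fib (k+4) : ℝ) + fib (k+2) + d) / fib (k+2) := by
    field_simp
    ring
  rw [e1, e2, div_div_div_cancel_right₀ h2]

/-- general limit: `(fib (k+2) + c)/(Lu (k+1) + d) → 1/(φ+φ³)`. -/
lemma lim_b (c d : ℝ) : Tendsto (fun k => ((fib (k+2) : ℝ) + c) / ((Lu (k+1) : ℝ) + d)) atTop
    (𝓝 (1 / (goldenRatio + goldenRatio^3))) := by
  have h1 : Tendsto (fun k : ℕ => (1 + c * (1 / (fib (k+2) : ℝ))) /
      (((fib (k+3) : ℝ)) / fib (k+2) + ((fib (k+5) : ℝ)) / fib (k+2)
        + d * (1 / (fib (k+2) : ℝ)))) atTop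
      (𝓝 ((1 + c * 0) / (goldenRatio + goldenRatio^3 + d * 0))) := by
    apply Tendsto.div
    · exact tendsto_const_nhds.add (inv_fib.const_mul c)
    · exact ((fib_ratio 2).add ratio3).add (inv_fib.const_mul d)
    · have := goldenRatio_pos
      rw [mul_zero, add_zero]
      positivity
  simp only [mul_zero, add_zero] at h1
  refine h1.congr (fun k => ?_)
  have h2 := fib_ne (k+2) (by omega)
  have h3 : (Lu (k+1) : ℝ) = fib (k+5) + fib (k+3) := by unfold Lu; push_cast; ring
  rw [h3]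
  have e1 : (1 + c * (1 / (fib (k+2) : ℝ))) = ((fib (k+2) : ℝ) + c) / fib (k+2) := by
    field_simp
  have e2 : (((fib (k+3) : ℝ)) / fib (k+2) + ((fib (k+5) : ℝ)) / fib (k+2)
        + d * (1 / (fib (k+2) : ℝ))) =
      ((fib (k+5) : ℝ) + fib (k+3) + d) / fib (k+2) := by
    field_simp
    ring
  rw [e1, e2, div_div_div_cancel_right₀ h2]

/-- the ratio -/
noncomputable def r (N : ℕ) : ℝ := (moc SZ N : ℝ) / N

lemma Lu_pos (k : ℕ) : 0 < Lu k := by
  unfold Lu
  have := Nat.fib_pos.2 (show 0 < k + 4 by omega)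
  omega

/-- block index -/
lemma exists_block (N : ℕ) (hN : 29 < N) : ∃ k, 4 ≤ k ∧ Lu k < N ∧ N ≤ Lu (k+1) := by
  have h : ∃ m, N ≤ Lu m := ⟨N, Lu_strictMono.le_apply⟩
  classical
  have h1 := Nat.find_spec h
  have h2 : ∀ m < Nat.find h, ¬ N ≤ Lu m := fun m hm => Nat.find_min h hm
  have h3 : 5 ≤ Nat.find h := by
    by_contra hc
    have : Lu (Nat.find h) ≤ Lu 4 := Lu_strictMono.monotone (by omega)
    have e : Lu 4 = 29 := rfl
    omega
  refine ⟨Nat.find h - 1, by omega, ?_, ?_⟩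
  · have := h2 (Nat.find h - 1) (by omega)
    omega
  · have e : Nat.find h - 1 + 1 = Nat.find h := by omega
    rw [e]; exact h1

open Classical in
/-- the block index function -/
noncomputable def bk (N : ℕ) : ℕ := if h : 29 < N then (exists_block N h).choose else 0

lemma bk_spec (N : ℕ) (h : 29 < N) : 4 ≤ bk N ∧ Lu (bk N) < N ∧ N ≤ Lu (bk N + 1) := by
  unfold bk
  rw [dif_pos h]
  exact (exists_block N h).choose_spec

lemma bk_tendsto : Tendsto bk atTop atTop := by
  rw [tendsto_atTop]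
  intro b
  filter_upwards [eventually_gt_atTop (max 29 (Lu b))] with N hN
  have h1 : 29 < N := lt_of_le_of_lt (le_max_left _ _) hN
  have h2 : Lu b < N := lt_of_le_of_lt (le_max_right _ _) hN
  obtain ⟨_, _, h5⟩ := bk_spec N h1
  have : b < bk N + 1 := Lu_strictMono.lt_iff_lt.1 (by omega)
  omega

lemma r_le (N : ℕ) (h : 29 < N) : r N ≤ ((fib (bk N + 2) : ℝ) + 2) / ((Lu (bk N) : ℝ) + 0) := by
  obtain ⟨h1, h2, h3⟩ := bk_spec N h
  have h4 := upper_bound (bk N) N h1 h3
  have h5 := Lu_pos (bk N)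
  unfold r
  rw [add_zero]
  apply div_le_div₀
  · positivity
  · exact_mod_cast h4
  · exact_mod_cast h5
  · exact_mod_cast h2.le

lemma le_r (N : ℕ) (h : 29 < N) :
    ((fib (bk N + 2) : ℝ) + 1) / ((Lu (bk N + 1) : ℝ) + 0) ≤ r N := by
  obtain ⟨h1, h2, h3⟩ := bk_spec N h
  have h4 := lower_bound (bk N) N h1 h2
  unfold r
  rw [add_zero]
  apply div_le_div₀
  · positivity
  · exact_mod_cast h4
  · have : 0 < N := by omega
    exact_mod_cast this
  · exact_mod_cast h3

lemma r_nonneg (N : ℕ) : 0 ≤ r N := by unfold r; positivity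

lemma sub_a : Tendsto (fun k => r (Lu k + 1)) atTop (𝓝 (1 / (1 + goldenRatio^2))) := by
  refine tendsto_of_tendsto_of_tendsto_of_le_of_le' (lim_a 1 1) (lim_a 2 1) ?_ ?_
  · filter_upwards [eventually_ge_atTop 4] with k hk
    have h1 := lower_bound k (Lu k + 1) hk (by omega)
    unfold r
    have h2 : (((Lu k + 1 : ℕ)) : ℝ) = (Lu k : ℝ) + 1 := by push_cast; ring
    rw [h2]
    apply div_le_div_of_nonneg_right
    · exact_mod_cast h1
    · positivity
  · filter_upwards [eventually_ge_atTop 4] with k hk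
    have h0 : Lu k < Lu (k+1) := Lu_strictMono (by omega)
    have h1 := upper_bound k (Lu k + 1) hk (by omega)
    unfold r
    have h2 : (((Lu k + 1 : ℕ)) : ℝ) = (Lu k : ℝ) + 1 := by push_cast; ring
    rw [h2]
    apply div_le_div_of_nonneg_right
    · exact_mod_cast h1
    · positivity

lemma sub_b : Tendsto (fun k => r (Lu (k+1))) atTop
    (𝓝 (1 / (goldenRatio + goldenRatio^3))) := by
  refine tendsto_of_tendsto_of_tendsto_of_le_of_le' (lim_b 1 0) (lim_b 2 0) ?_ ?_
  · filter_upwards [eventually_ge_atTop 4] with k hk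
    have h0 : Lu k < Lu (k+1) := Lu_strictMono (by omega)
    have h1 := lower_bound k (Lu (k+1)) hk h0
    unfold r
    rw [add_zero]
    apply div_le_div_of_nonneg_right
    · exact_mod_cast h1
    · positivity
  · filter_upwards [eventually_ge_atTop 4] with k hk
    have h1 := upper_bound k (Lu (k+1)) hk le_rfl
    unfold r
    rw [add_zero]
    apply div_le_div_of_nonneg_right
    · exact_mod_cast h1
    · positivity

lemma Lu_tendsto : Tendsto Lu atTop atTop := Lu_strictMono.tendsto_atTop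

lemma ne_consts : 1 / (1 + goldenRatio^2) ≠ 1 / (goldenRatio + goldenRatio^3) := by
  have h1 := one_lt_goldenRatio
  have h2 := goldenRatio_pos
  intro h
  rw [one_div, one_div, inv_inj] at h
  nlinarith [mul_pos h2 h2]

lemma upper_tendsto : Tendsto (fun N => ((fib (bk N + 2) : ℝ) + 2) / ((Lu (bk N) : ℝ) + 0)) atTop
    (𝓝 (1 / (1 + goldenRatio^2))) := (lim_a 2 0).comp bk_tendsto

lemma lower_tendsto : Tendsto (fun N => ((fib (bk N + 2) : ℝ) + 1) / ((Lu (bk N + 1) : ℝ) + 0))
    atTop (𝓝 (1 / (goldenRatio + goldenRatio^3))) := (lim_b 1 0).comp bk_tendsto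

lemma bddAbove : IsBoundedUnder (· ≤ ·) atTop r := by
  have h1 := upper_tendsto.isBoundedUnder_le
  refine h1.mono_le ?_
  filter_upwards [eventually_gt_atTop 29] with N hN
  exact r_le N hN

lemma bddBelow : IsBoundedUnder (· ≥ ·) atTop r :=
  isBoundedUnder_of ⟨0, fun N => r_nonneg N⟩

lemma limsup_eq : limsup r atTop = 1 / (1 + goldenRatio^2) := by
  apply le_antisymm
  · rw [← upper_tendsto.limsup_eq]
    apply limsup_le_limsup
    · filter_upwards [eventually_gt_atTop 29] with N hN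
      exact r_le N hN
    · exact bddBelow.isCoboundedUnder_le
    · exact upper_tendsto.isBoundedUnder_le
  · have ht : Tendsto (fun k => Lu k + 1) atTop atTop :=
      tendsto_atTop_mono (fun k => Nat.le_succ (Lu k)) Lu_tendsto
    have ht' : map (fun k => Lu k + 1) atTop ≤ atTop := ht
    have h1 : limsup r (map (fun k => Lu k + 1) atTop) = 1 / (1 + goldenRatio^2) := by
      rw [← limsup_comp r (fun k => Lu k + 1) atTop]
      exact sub_a.limsup_eq
    rw [← h1]
    exact limsup_le_limsup_of_le ht' (bddBelow.mono ht').isCoboundedUnder_le bddAbove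

lemma liminf_eq : liminf r atTop = 1 / (goldenRatio + goldenRatio^3) := by
  apply le_antisymm
  · have ht : Tendsto (fun k => Lu (k+1)) atTop atTop :=
      Lu_tendsto.comp (tendsto_add_atTop_nat 1)
    have ht' : map (fun k => Lu (k+1)) atTop ≤ atTop := ht
    have h1 : liminf r (map (fun k => Lu (k+1)) atTop) =
        1 / (goldenRatio + goldenRatio^3) := by
      rw [← liminf_comp r (fun k => Lu (k+1)) atTop]
      exact sub_b.liminf_eq
    rw [← h1]
    exact liminf_le_liminf_of_le ht' bddBelow (bddAbove.mono ht').isCoboundedUnder_ge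
  · rw [← lower_tendsto.liminf_eq]
    apply liminf_le_liminf
    · filter_upwards [eventually_gt_atTop 29] with N hN
      exact le_r N hN
    · exact lower_tendsto.isBoundedUnder_ge
    · exact bddAbove.isCoboundedUnder_ge

/-- **Disproof of Q1 of MP_b74c76_co.** -/
theorem result :
    (∀ K N : ℕ, 7 ≤ K → lucas K < N → N ≤ lucas (K+1) →
      moc SZ N = fib (K-1) + 1 ∨ moc SZ N = fib (K-1) + 2) ∧
    limsup (fun N : ℕ => (moc SZ N : ℝ) / N) atTop = 1 / (1 + goldenRatio^2) ∧
    liminf (fun N : ℕ => (moc SZ N : ℝ) / N) atTop = 1 / (goldenRatio + goldenRatio^3) ∧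
    ¬ ∃ c : ℝ, Tendsto (fun N : ℕ => (moc SZ N : ℝ) / N) atTop (𝓝 c) := by
  refine ⟨?_, limsup_eq, liminf_eq, ?_⟩
  · intro K N hK h1 h2
    obtain ⟨k, rfl⟩ := Nat.exists_eq_add_of_le' hK
    have e1 : k + 7 = (k + 4) + 3 := by omega
    have e2 : k + 7 + 1 = (k + 4) + 4 := by omega
    rw [e1, (lucas_eq (k+4)).1] at h1
    rw [e2, (lucas_eq (k+4)).2] at h2
    have h3 := lower_bound (k+4) N (by omega) h1
    have h4 := upper_bound (k+4) N (by omega) h2
    have e3 : k + 7 - 1 = k + 4 + 2 := by omega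
    rw [e3]
    omega
  · rintro ⟨c, hc⟩
    have h1 := hc.limsup_eq
    have h2 := hc.liminf_eq
    have h3 : limsup r atTop = liminf r atTop := by
      show limsup (fun N : ℕ => (moc SZ N : ℝ) / N) atTop =
        liminf (fun N : ℕ => (moc SZ N : ℝ) / N) atTop
      rw [h1, h2]
    rw [limsup_eq, liminf_eq] at h3
    exact ne_consts h3

end Pool.Agent.Results.MP_b74c76_co.NoLimit
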